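import Pool.Agent.T9h49.FE.LevelsEnd

/-!
# Extended Frege proofs with few levels of affine definitions

Suppose that the definitions of an extended Frege proof of `τ` with `s` symbols are divided into `d`
levels such that a definition uses only extension variables of its own level and of lower levels,
and is affine in the extension variables of its own level: it is built from them and from formulas
without them by addition (inclusive or, or exclusive or, as chosen for the level) and by
multiplication with formulas without them. There is no bound on the nesting of the definitions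
within a level. Then `τ` has a Frege proof with at most `(s + 2) ^ (c (d + 1) (log s + 1))`
symbols. So if tautologies `τ n` separate extended Frege from Frege with a lower bound
`2 ^ (|τ n| ^ ε)`, then, for every `δ < ε`, the definitions of every polynomial-size extended Frege
proof of `τ n`, `n` large, have more than `|τ n| ^ δ` levels in every such division.
-/

set_option autoImplicit false

namespace Pool.Agent.Results.MP_c07f0d_lc.AffineLevels

open Pool.Agent.T9h49.FE Filter

theorem base_le (C x : ℕ) (hx : C + 2 ≤ x) : x ^ C + C + 2 ≤ x ^ (C + 2) := by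
  have e1 : 1 ≤ x ^ C := Nat.one_le_pow _ _ (by omega)
  have e2 : x ^ (C + 2) = x ^ C * (x * x) := by ring
  rw [e2]
  have e3 : x + x ≤ x * x := by nlinarith
  have e4 : x ^ C * (x + x) ≤ x ^ C * (x * x) := Nat.mul_le_mul_left _ e3
  have e5 : x ^ C + x ≤ x ^ C * (x + x) := by nlinarith
  omega

theorem log_eventually (C : ℕ) {η : ℝ} (hη : 0 < η) : ∀ᶠ x : ℕ in atTop,
    ((Nat.log 2 (x ^ C + C) + 1 : ℕ) : ℝ) ≤ (1 / 4 : ℝ) * (x : ℝ) ^ η := by
  have hA : ∀ᶠ x : ℝ in atTop, Real.log x ≤ (Real.log 2 / (C + 2) / 8) * x ^ η := by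
    have h1 := (isLittleO_log_rpow_atTop hη).def
      (show 0 < Real.log 2 / (C + 2) / 8 from
        div_pos (div_pos (Real.log_pos (by norm_num)) (by positivity)) (by norm_num))
    filter_upwards [h1, eventually_ge_atTop 1] with x hx hx1
    rw [Real.norm_of_nonneg (Real.log_nonneg hx1),
      Real.norm_of_nonneg (Real.rpow_nonneg (by linarith) _)] at hx
    exact hx
  have hB := (tendsto_rpow_atTop hη).eventually (eventually_ge_atTop (8 : ℝ))
  have hA' := tendsto_natCast_atTop_atTop (R := ℝ) |>.eventually hA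
  have hB' := tendsto_natCast_atTop_atTop (R := ℝ) |>.eventually hB
  filter_upwards [hA', hB', eventually_ge_atTop (C + 2)] with x hx1 hx2 hxC
  have hl2 : 0 < Real.log 2 := Real.log_pos (by norm_num)
  have hS : x ^ C + C ≤ x ^ (C + 2) := by
    have := base_le C x hxC
    omega
  have hS1 : 0 < x ^ C + C := Nat.add_pos_left (Nat.pow_pos (by omega)) _
  have h1 : ((Nat.log 2 (x ^ C + C) : ℕ) : ℝ) * Real.log 2 ≤ ((C + 2 : ℕ) : ℝ) * Real.log x := by
    have e1 : 2 ^ Nat.log 2 (x ^ C + C) ≤ x ^ (C + 2) :=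
      (Nat.pow_log_le_self 2 (by omega)).trans hS
    have e2 : ((2 : ℝ)) ^ Nat.log 2 (x ^ C + C) ≤ (x : ℝ) ^ (C + 2) := by exact_mod_cast e1
    have e3 := Real.log_le_log (by positivity) e2
    rwa [Real.log_pow, Real.log_pow] at e3
  have h2 : ((C + 2 : ℕ) : ℝ) * Real.log x ≤ Real.log 2 / 8 * (x : ℝ) ^ η := by
    refine (mul_le_mul_of_nonneg_left hx1 (by positivity)).trans (le_of_eq ?_)
    push_cast
    field_simp
  have h3 : ((Nat.log 2 (x ^ C + C) : ℕ) : ℝ) ≤ (1 / 8 : ℝ) * (x : ℝ) ^ η := by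
    have h4 : ((Nat.log 2 (x ^ C + C) : ℕ) : ℝ) * Real.log 2 ≤
        ((1 / 8 : ℝ) * (x : ℝ) ^ η) * Real.log 2 := by
      refine (h1.trans h2).trans (le_of_eq ?_)
      ring
    exact le_of_mul_le_mul_right h4 hl2
  push_cast
  linarith

theorem asymp (c C : ℕ) {δ ε : ℝ} (hδ : 0 < δ) (h : δ < ε) :
    ∀ᶠ x : ℕ in atTop, ∀ d : ℕ, (d : ℝ) ≤ (x : ℝ) ^ δ →
      ((((x ^ C + C) + 2) ^ (c * (d + 1) * (Nat.log 2 (x ^ C + C) + 1)) : ℕ) : ℝ) <
        2 ^ ((x : ℝ) ^ ε) := by
  have hη : 0 < (ε - δ) / 3 := by linarith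
  have hA := log_eventually C hη
  have hB := (tendsto_rpow_atTop hη).eventually (eventually_gt_atTop (2 * (c : ℝ)))
  have hC : ∀ᶠ x : ℝ in atTop, Real.log x ≤ (Real.log 2 / (C + 2)) * x ^ ((ε - δ) / 3) := by
    have h1 := (isLittleO_log_rpow_atTop hη).def
      (show 0 < Real.log 2 / (C + 2) from div_pos (Real.log_pos (by norm_num)) (by positivity))
    filter_upwards [h1, eventually_ge_atTop 1] with x hx hx1
    rw [Real.norm_of_nonneg (Real.log_nonneg hx1),
      Real.norm_of_nonneg (Real.rpow_nonneg (by linarith) _)] at hx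
    exact hx
  have hB' := tendsto_natCast_atTop_atTop (R := ℝ) |>.eventually hB
  have hC' := tendsto_natCast_atTop_atTop (R := ℝ) |>.eventually hC
  filter_upwards [hA, hB', hC', eventually_ge_atTop (C + 2)] with x hx1 hx2 hx3 hxC d hd
  have hx0 : 1 ≤ x := by omega
  have hxr : (1 : ℝ) ≤ x := by exact_mod_cast hx0
  have hxp : (0 : ℝ) < x := by linarith
  set L : ℝ := (x : ℝ) ^ ((ε - δ) / 3) with hL
  have h7 := base_le C x hxC
  have h8 : (((x ^ C + C) + 2 : ℕ) : ℝ) ≤ (2 : ℝ) ^ L := by
    have e1 : (((x ^ C + C) + 2 : ℕ) : ℝ) ≤ ((x ^ (C + 2) : ℕ) : ℝ) := by exact_mod_cast h7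
    refine e1.trans ?_
    have hl2 : 0 < Real.log 2 := Real.log_pos (by norm_num)
    rw [← Real.log_le_log_iff (by positivity) (by positivity), Real.log_rpow (by norm_num),
      Nat.cast_pow, Real.log_pow]
    have e2 : ((C + 2 : ℕ) : ℝ) * Real.log x ≤ ((C + 2 : ℕ) : ℝ) * (Real.log 2 / (C + 2) * L) :=
      mul_le_mul_of_nonneg_left hx3 (by positivity)
    refine e2.trans (le_of_eq ?_)
    push_cast
    field_simp
  set J : ℕ := Nat.log 2 (x ^ C + C) + 1 with hJ
  have hL1 : (1 : ℝ) ≤ L := Real.one_le_rpow hxr hη.le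
  have hX1 : (1 : ℝ) ≤ (x : ℝ) ^ δ := Real.one_le_rpow hxr hδ.le
  rw [Nat.cast_pow]
  calc (((x ^ C + C) + 2 : ℕ) : ℝ) ^ (c * (d + 1) * J)
      ≤ ((2 : ℝ) ^ L) ^ (c * (d + 1) * J) := pow_le_pow_left₀ (by positivity) h8 _
    _ = (2 : ℝ) ^ (L * ((c * (d + 1) * J : ℕ) : ℝ)) := by
        rw [Real.rpow_mul (by norm_num), Real.rpow_natCast]
    _ < 2 ^ ((x : ℝ) ^ ε) := by
        refine Real.rpow_lt_rpow_of_exponent_lt (by norm_num) ?_
        have hε : (x : ℝ) ^ ε = (x : ℝ) ^ δ * L * L * L := by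
          rw [hL, ← Real.rpow_add hxp, ← Real.rpow_add hxp, ← Real.rpow_add hxp]
          congr 1
          ring
        rw [hε]
        push_cast
        have hc0 : (0 : ℝ) ≤ c := Nat.cast_nonneg _
        have hJ0 : (0 : ℝ) ≤ (J : ℝ) := Nat.cast_nonneg _
        have hJL : (J : ℝ) ≤ L := by linarith
        have hd1 : (d : ℝ) + 1 ≤ 2 * (x : ℝ) ^ δ := by linarith
        have hd0 : (0 : ℝ) ≤ (d : ℝ) + 1 := by positivity
        have f1 : ((d : ℝ) + 1) * J ≤ (2 * (x : ℝ) ^ δ) * L :=
          mul_le_mul hd1 hJL hJ0 (by positivity)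
        have f2 : L * (c * (d + 1) * J) ≤ (2 * c) * ((x : ℝ) ^ δ * L * L) := by
          have := mul_le_mul_of_nonneg_left f1 (mul_nonneg (by linarith : (0 : ℝ) ≤ L) hc0)
          nlinarith
        have f3 : (2 * (c : ℝ)) * ((x : ℝ) ^ δ * L * L) < L * ((x : ℝ) ^ δ * L * L) :=
          mul_lt_mul_of_pos_right hx2 (by positivity)
        nlinarith

/-- Let `F` be a Frege system and let `R false`, `R true` consist of a formula for addition
(inclusive or, or exclusive or) and a formula for multiplication (conjunction) in its basis.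

(1) There is a constant `c` such that from every extended Frege proof `π` of a formula `τ` whose
definitions `D` have `d` levels of affine definitions, one obtains a Frege proof of `τ` with at most
`(|π| + 2) ^ (c (d + 1) (log |π| + 1))` symbols.

(2) Let `τ n` be formulas whose sizes tend to infinity such that every Frege proof of `τ n` has size
at least `2 ^ (|τ n| ^ ε)`, and let `0 < δ < ε`. Then for every exponent `C` and all large `n`, in
every extended Frege proof of `τ n` of size at most `|τ n| ^ C + C`, every division of the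
definitions into levels of affine definitions has more than `|τ n| ^ δ` levels. -/
theorem result (F : FregeSystem) (R : Bool → Arith F) :
    (∃ c : ℕ, ∀ (τ : Fm F.B) (D : List (ℕ × Fm F.B)) (π : List (Fm F.B)), IsEProof F τ D π →
      ∀ (d : ℕ) (lev : ℕ → ℕ) (op : ℕ → Bool), AffineLevels R D d lev op →
      ∃ π', IsProof F τ π' ∧
        lsize π' ≤ (lsize π + 2) ^ (c * (d + 1) * (Nat.log 2 (lsize π) + 1))) ∧
    ∀ (τ : ℕ → Fm F.B) (ε δ : ℝ), 0 < δ → δ < ε → Tendsto (fun n => (τ n).size) atTop atTop →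
      (∀ n π, IsProof F (τ n) π → (2 : ℝ) ^ (((τ n).size : ℝ) ^ ε) ≤ lsize π) →
      ∀ C : ℕ, ∀ᶠ n in atTop, ∀ D π, IsEProof F (τ n) D π → lsize π ≤ (τ n).size ^ C + C →
        ∀ (d : ℕ) (lev : ℕ → ℕ) (op : ℕ → Bool), AffineLevels R D d lev op →
          ((τ n).size : ℝ) ^ δ < d := by
  refine ⟨of_affine F R, fun τ ε δ hδ hδε hτ hlow C => ?_⟩
  obtain ⟨c, hc⟩ := of_affine F R
  filter_upwards [hτ.eventually (asymp c C hδ hδε)] with n hn D π h hs d lev op hL
  by_contra hd
  rw [not_lt] at hd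
  obtain ⟨π', h1, h2⟩ := hc _ _ _ h d lev op hL
  have h3 := hn d hd
  have h4 := hlow n π' h1
  have h5 : (lsize π' : ℝ) ≤ (((((τ n).size ^ C + C) + 2) ^
      (c * (d + 1) * (Nat.log 2 ((τ n).size ^ C + C) + 1)) : ℕ) : ℝ) := by
    have e : lsize π' ≤ (((τ n).size ^ C + C) + 2) ^
        (c * (d + 1) * (Nat.log 2 ((τ n).size ^ C + C) + 1)) :=
      h2.trans ((Nat.pow_le_pow_left (by omega) _).trans (Nat.pow_le_pow_right (by omega)
        (Nat.mul_le_mul_left _ (Nat.add_le_add_right (Nat.log_mono_right hs) _))))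
    exact_mod_cast e
  linarith

end Pool.Agent.Results.MP_c07f0d_lc.AffineLevels
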