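import Mathlib
import Pool.Agent.T9h49.QS.Sep

/-!
# Exponential separation of extended Frege refutations and Frege refutations with lines of less
than quadratic length

Frege systems and extended Frege systems over conjunction, disjunction and negation refute sets of
formulas in `n = 33 m q` variables; the refutations start from the members of the set. `F m q`
consists of `m` formulas of size `O(q²)`, `G m q` of `m 2 ^ O(q)` clauses of size `O(q)`.

* Each Frege system has an extended Frege refutation of `F m q` with `O(n²)` lines of size `O(q²)`,
  and of `G m q` with `O(n² + m 2 ^ O(q))` lines of size `O(q)`; without extension it has a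
  refutation of `F m q` with `O(n log n)` lines of size `O(n²)`.
* Each refutation of `F m q ∪ G m q` by sound rules with a bounded number of premises (so in any
  Frege system) whose lines have at most `ε m q²` occurrences of variables has at least `2 ^ m`
  lines. So the lines may be longer by a factor `ε' m` than those of the extended Frege refutation
  of `F m q`; their length `ε m q²` is `n² / m` up to a constant factor.

For `q` constant `G m q` is a set of clauses of bounded size, and the lines may have `K n`
occurrences for any constant `K` (take `q` large), with `2 ^ (n / (33 q))` lines in the lower bound.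
For `q` about `log m` the set `G m q` has polynomial size and the lines may have `ε' n log n`
occurrences. For `q = m ^ k` the lines may have `ε' n ^ (2 - 1 / (k + 1))` occurrences. The lower
bound holds more generally if each line becomes that short on each branch of some decision tree of
depth at most `ε m q`, or has little Fourier weight above the level `ε m q`. The length is optimal
for arbitrary sound rules: with lines of length `O(m q²)`, `2 m` lines suffice for `F m q`.

The formulas say that the sum modulo two of the variables at each vertex of a sparse expanding graph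
with `m` vertices is odd, where each edge has a block of `q` variables. In the extended Frege
refutation the extension variable `D (j, k)` is the sum modulo two of those of the first `j` terms
of the list of all vertex conditions whose index is less than `k` (library `T9h90.EF`). New is the
derivation of the condition of a vertex from its formula of size `O(q²)`: along the tree of this
formula one derives for each subformula `P`, which is the sum of the terms from position `i` to
position `j`, that `P ↔ D (j, n) ⊕ D (i, n)`. In the Frege refutation `D (j, n)` is replaced by a
formula of size `O(n²)` for the sum of the variables which occur an odd number of times among the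
first `j` terms; it changes with `j` only on one branch of its tree. The lower bound is that of
`MP_51bb46_lc.QuadraticLines`.
-/

set_option autoImplicit false

namespace Pool.Agent.Results.MP_c07f0d_lc.QuadraticLineSeparation

open Finset
open Pool.Agent.T9h49.RK (PForm Rule Refutes sizeL Unsat)
open Pool.Agent.T9h90.FT (tailW)
open Pool.Agent.T9h82.SL (Short)
open Pool.Agent.T9h90.EF (Frege ERefutes)
open Pool.Agent.T9h49.QS (cut)

/-- There are constants `C`, and `K Φ` for each Frege system `Φ`, and for odd `m ≥ 3` and `q ≥ 1`
unsatisfiable sets `F m q` of `m` formulas with at most `C q` variables and `C q²` symbols, and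
`G m q` of clauses with at most `C q` symbols, of total size at most `m 2 ^ (C q)`, in
`n = 33 m q` variables, such that
* each Frege system `Φ` has an extended Frege refutation of `F m q` with at most `K Φ (m q)²` lines,
  each with at most `K Φ q²` symbols, one of `G m q` with at most `K Φ ((m q)² + m 2 ^ (C q))`
  lines, each with at most `K Φ q` symbols, and a Frege refutation of `F m q` with at most
  `K Φ m q (log (m q) + 1)` lines, each with at most `K Φ (m q)²` symbols;
* sound rules with at most two premises refute `F m q` with at most `2 m` lines, each with at most
  `C m q²` symbols;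
* for each `r` there are `ε > 0` and `m0` such that for odd `m ≥ m0` and `q ≥ 1` each refutation of
  `F m q ∪ G m q` by sound rules with at most `r` premises has at least `2 ^ m` lines, if each of its
  lines, with the variables other than the first `n` ones set to false, is computed by a decision
  tree of depth at most `ε m q` with formulas at the leaves which have at most `ε m q²` occurrences
  of variables, or has Fourier weight at most `2 ^ (-m / ε)` on the levels at least `ε m q`. -/
theorem result : ∃ (C : ℕ) (K : Set Rule → ℕ) (F G : ℕ → ℕ → List PForm),
    (∀ m q : ℕ, Odd m → 3 ≤ m → 1 ≤ q →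
      ((F m q).length = m ∧ Unsat (F m q) ∧
        ∀ A ∈ F m q, A.vars ⊆ range (33 * m * q) ∧ A.vars.card ≤ C * q ∧ A.size ≤ C * q ^ 2) ∧
      (sizeL (G m q) ≤ m * 2 ^ (C * q) ∧ Unsat (G m q) ∧
        ∀ A ∈ G m q, A.IsClause ∧ A.vars ⊆ range (33 * m * q) ∧ A.size ≤ C * q) ∧
      (∃ π : List PForm, Refutes {ρ | ρ.Sound ∧ ρ.prem.length ≤ 2} (F m q) π ∧
        π.length ≤ 2 * m ∧ ∀ A ∈ π, A.size ≤ C * (m * q ^ 2)) ∧
      ∀ Φ : Set Rule, Frege Φ →
        (∃ π : List PForm, ERefutes Φ (F m q) π ∧ π.length ≤ K Φ * (m * q) ^ 2 ∧
          ∀ A ∈ π, A.size ≤ K Φ * q ^ 2) ∧
        (∃ π : List PForm, ERefutes Φ (G m q) π ∧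
          π.length ≤ K Φ * ((m * q) ^ 2 + m * 2 ^ (C * q)) ∧ ∀ A ∈ π, A.size ≤ K Φ * q) ∧
        ∃ π : List PForm, Refutes Φ (F m q) π ∧ PForm.and (.var 0) (.neg (.var 0)) ∈ π ∧
          π.length ≤ K Φ * (m * q * (Nat.log 2 (m * q) + 1)) ∧
          ∀ A ∈ π, A.size ≤ K Φ * (m * q) ^ 2) ∧
    ∀ r : ℕ, ∃ ε : ℝ, 0 < ε ∧ ∃ m0 : ℕ, ∀ m q : ℕ, Odd m → m0 ≤ m → 1 ≤ q →
      ∀ Φ : Set Rule, (∀ ρ ∈ Φ, ρ.Sound ∧ ρ.prem.length ≤ r) → ∀ π : List PForm,
        Refutes Φ (F m q ++ G m q) π →
        (∀ A ∈ π, (∃ d s : ℕ, (d : ℝ) ≤ ε * (m * q) ∧ (s : ℝ) ≤ ε * (m * q ^ 2) ∧
            Short s d (fun a => A.eval (cut (33 * m * q) a))) ∨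
          tailW (33 * m * q) A (ε * (m * q)) ≤ 2 ^ (-((m : ℝ) / ε))) →
        2 ^ m ≤ π.length :=
  Pool.Agent.T9h49.QS.main

end Pool.Agent.Results.MP_c07f0d_lc.QuadraticLineSeparation
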