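import Pool.Agent.T9h49.FE.Normal

/-!
# Frege proofs of size `2 ^ O(s log log s / log s)` from extended Frege proofs of size `s`

Every extended Frege proof with `s` symbols can be turned into a Frege proof with
`2 ^ O(s log log s / log s)` symbols. Valiant's depth reduction is applied to the graph of the
definitions of the extension variables: few variables are guessed, the others have small nesting
depth and are unfolded. An exponential separation exists if and only if there is one whose extended
Frege proofs have linear size, and for tautologies `τ` with extended Frege proofs of linear size the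
Frege proofs have size at most `2 ^ O(|τ| log log |τ| / log |τ|)`.
-/

set_option autoImplicit false

namespace Pool.Agent.Results.MP_c07f0d_lc.SubexponentialSimulation

open Pool.Agent.T9h49.FE

theorem linear_case (F : FregeSystem) (C : ℕ) : ∃ c : ℝ, ∀ (τ : Fm F.B)
    (D : List (ℕ × Fm F.B)) (π : List (Fm F.B)), IsEProof F τ D π → lsize π ≤ C * τ.size →
    16 ≤ τ.size → C ≤ τ.size → ∃ π', IsProof F τ π' ∧ (lsize π' : ℝ) ≤
      2 ^ (c * (τ.size * Real.log (Real.log τ.size) / Real.log τ.size)) := by
  obtain ⟨c, hc⟩ := subexp F
  refine ⟨|c| * (2 * C), fun τ D π h hs h16 hC => ?_⟩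
  set x := τ.size with hx
  set s := lsize π with hsdef
  have hxs : x ≤ s := size_le_lsize h.2
  obtain ⟨π', h1, h2⟩ := hc τ D π h (h16.trans hxs)
  refine ⟨π', h1, h2.trans (Real.rpow_le_rpow_of_exponent_le (by norm_num) ?_)⟩
  have hxr : (16 : ℝ) ≤ x := by exact_mod_cast h16
  have hxsr : (x : ℝ) ≤ s := by exact_mod_cast hxs
  have hCr : (C : ℝ) ≤ x := by exact_mod_cast hC
  have hsr : (s : ℝ) ≤ C * x := by exact_mod_cast hs
  have hl2' : (0.6931471803 : ℝ) < Real.log 2 := Real.log_two_gt_d9
  have hl2'' : Real.log 2 < 0.6931471808 := Real.log_two_lt_d9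
  have hlog16 : 4 * Real.log 2 ≤ Real.log x := by
    have : Real.log 16 = 4 * Real.log 2 := by
      rw [show (16 : ℝ) = 2 ^ 4 by norm_num, Real.log_pow]
      norm_num
    rw [← this]
    exact Real.log_le_log (by norm_num) hxr
  have hlx : 0 < Real.log x := by linarith
  have hll : 1 ≤ Real.log (Real.log x) := by
    rw [Real.le_log_iff_exp_le hlx]
    have := Real.exp_one_lt_d9
    linarith
  have hls : Real.log x ≤ Real.log s := Real.log_le_log (by linarith) hxsr
  have hls2 : Real.log s ≤ 2 * Real.log x := by
    have e1 : (s : ℝ) ≤ x * x := hsr.trans (mul_le_mul_of_nonneg_right hCr (by linarith))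
    have e2 := Real.log_le_log (by linarith) e1
    rw [Real.log_mul (by linarith) (by linarith)] at e2
    linarith
  have hlls : Real.log (Real.log s) ≤ 2 * Real.log (Real.log x) := by
    have e1 := Real.log_le_log (by linarith) hls2
    rw [Real.log_mul (by norm_num) hlx.ne'] at e1
    linarith
  have hlls0 : 0 ≤ Real.log (Real.log s) := Real.log_nonneg (by linarith)
  have key : (s : ℝ) * Real.log (Real.log s) / Real.log s ≤
      (2 * C) * (x * Real.log (Real.log x) / Real.log x) := by
    calc (s : ℝ) * Real.log (Real.log s) / Real.log s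
        ≤ (s : ℝ) * Real.log (Real.log s) / Real.log x :=
          div_le_div_of_nonneg_left (by positivity) hlx hls
      _ ≤ (C * x) * (2 * Real.log (Real.log x)) / Real.log x := by
          refine div_le_div_of_nonneg_right ?_ hlx.le
          exact mul_le_mul hsr hlls hlls0 (by positivity)
      _ = _ := by ring
  have h0 : 0 ≤ (s : ℝ) * Real.log (Real.log s) / Real.log s := by
    have : 0 < Real.log s := by linarith
    positivity
  calc c * ((s : ℝ) * Real.log (Real.log s) / Real.log s)
      ≤ |c| * ((s : ℝ) * Real.log (Real.log s) / Real.log s) :=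
        mul_le_mul_of_nonneg_right (le_abs_self c) h0
    _ ≤ |c| * ((2 * C) * (x * Real.log (Real.log x) / Real.log x)) :=
        mul_le_mul_of_nonneg_left key (abs_nonneg c)
    _ = _ := by ring

/-- Let `F` be a Frege system.

(1) There is a constant `c` such that every formula with an extended Frege proof of size `s ≥ 16`
has a Frege proof of size at most `2 ^ (c s log log s / log s)`.

(2) There are an `ε > 0` and formulas which separate extended Frege from Frege with the lower bound
`2 ^ (|τ n| ^ ε)` if and only if there are such an `ε` and such formulas whose extended Frege proofs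
have linear size.

(3) If the extended Frege proofs have linear size, then the lower bound is at most
`2 ^ (c |τ| log log |τ| / log |τ|)`: for every `C` there is `c` such that every formula `τ` of size
at least `16` and `C` with an extended Frege proof of size at most `C |τ|` has a Frege proof of at
most this size. -/
theorem result (F : FregeSystem) :
    (∃ c : ℝ, ∀ (τ : Fm F.B) (D : List (ℕ × Fm F.B)) (π : List (Fm F.B)), IsEProof F τ D π →
      16 ≤ lsize π → ∃ π', IsProof F τ π' ∧ (lsize π' : ℝ) ≤
        2 ^ (c * (lsize π * Real.log (Real.log (lsize π)) / Real.log (lsize π)))) ∧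
    ((∃ ε : ℝ, 0 < ε ∧ ∃ τ : ℕ → Fm F.B, Separates F τ ε) ↔
      ∃ ε : ℝ, 0 < ε ∧ ∃ τ : ℕ → Fm F.B, Separates F τ ε ∧
        ∃ C : ℕ, ∀ n, ∃ D π, IsEProof F (τ n) D π ∧ lsize π ≤ C * (τ n).size) ∧
    ∀ C : ℕ, ∃ c : ℝ, ∀ (τ : Fm F.B) (D : List (ℕ × Fm F.B)) (π : List (Fm F.B)),
      IsEProof F τ D π → lsize π ≤ C * τ.size → 16 ≤ τ.size → C ≤ τ.size →
      ∃ π', IsProof F τ π' ∧ (lsize π' : ℝ) ≤
        2 ^ (c * (τ.size * Real.log (Real.log τ.size) / Real.log τ.size)) :=
  ⟨subexp F, linear_form F, linear_case F⟩

end Pool.Agent.Results.MP_c07f0d_lc.SubexponentialSimulation
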