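import Mathlib
import Pool.Agent.T9h47.SG.Final
import Pool.Agent.T9h21.SE.Upper

/-!
# Symmetric extended Frege proofs do not separate extended Frege from Frege

A first-order sentence `φ` (with relation symbols and equality) and a finite universe `B` give a
propositional formula `φ_B` whose variables are the atomic sentences `r(b)`: quantifiers over `B`
become conjunctions and disjunctions. Most of the formulas considered in proof complexity which
express a combinatorial principle are of this form.

We consider refutations in the sequent calculus whose formulas are the nodes of a circuit with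
negations and with conjunctions and disjunctions of finite sets of nodes, of any depth. If the size is
the number of nodes and sequents, these are the extended Frege refutations; if all formulas are
written out without sharing and all symbols are counted, they are the Frege refutations (up to a
polynomial).

Theorem. If for a single finite universe `B` there is an extended Frege refutation of `φ_B` of size
`s` which is symmetric with respect to the permutations of `50 log s + 52 + 5 qr φ + 1` elements, then
there are Frege refutations of polynomial size of `φ_B` for all large `B`, even of bounded depth and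
symmetric with respect to all permutations. So if first-order principles separate extended Frege from
Frege then their small extended Frege refutations have almost no symmetry.

Proof. By the gap theorem `Results.MP_51bb46_lc.SymmetricGap` the first condition implies that `φ` has
no infinite model. By a bounded form of Henkin's construction there are then small refutations
consisting of instances of subformulas of `φ`; here we count their symbols.
-/

set_option autoImplicit false

namespace Pool.Agent.Results.MP_c07f0d_lc.SymmetricExtendedFrege

open Pool.Agent.T9h47.SF Pool.Agent.T9h47.SG Pool.Agent.T9h21.SE Filter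

theorem growth (a k : ℕ) : ∃ n₀ : ℕ, ∀ n ≥ n₀, 2 ^ a * n ^ k < 2 ^ n := by
  have h := tendsto_pow_const_div_const_pow_of_one_lt k (show (1 : ℝ) < 2 by norm_num)
  have h1 : (0 : ℝ) < 1 / 2 ^ a := by positivity
  obtain ⟨n₀, hn₀⟩ := eventually_atTop.1 (h.eventually (gt_mem_nhds h1))
  refine ⟨n₀, fun n hn => ?_⟩
  have h2 := hn₀ n hn
  rw [div_lt_div_iff₀ (by positivity) (by positivity), one_mul] at h2
  have h3 : ((2 ^ a * n ^ k : ℕ) : ℝ) < ((2 ^ n : ℕ) : ℝ) := by
    push_cast
    rw [mul_comm]
    exact h2
  exact_mod_cast h3

/-- **Symmetric extended Frege proofs do not separate.** For a first-order sentence `φ` of quantifier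
rank `q` the following are equivalent: for some finite universe there is an extended Frege refutation
of the propositional translation of `φ` of some size `s` which is symmetric with respect to a set `H`
of elements with `2 ^ (52 + 5 q) s ^ 50 < 2 ^ |H|`; for some `C` and all finite universes with
`b ≥ C` elements there is a Frege refutation with at most `b ^ C` symbols, symmetric with respect to
all permutations of the universe and of depth at most `C`. -/
theorem result {R : Type} (ar : R → ℕ) (φ : Fml ar 0) :
    (∃ (B : Type) (_ : Fintype B) (_ : DecidableEq B) (H : Finset B) (P : Pf (Vr ar B)),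
      RefutesFml P φ ∧ SymOn P H ∧ 2 ^ (52 + 5 * φ.qr) * P.size ^ 50 < 2 ^ H.card) ↔
    ∃ C : ℕ, ∀ (B : Type) [Fintype B] [DecidableEq B], C ≤ Fintype.card B →
      ∃ (P : Pf (Vr ar B)) (w : P.G → ℕ), RefutesFml P φ ∧ SymOn P Finset.univ ∧
        (∀ g, P.grank g ≤ C) ∧ P.size ≤ Fintype.card B ^ C ∧ Unfolded P w ∧
          symbols P w ≤ Fintype.card B ^ C := by
  constructor
  · rintro ⟨B, _, _, H, P, href, hsym, hlt⟩
    obtain ⟨C, hC⟩ := upper φ fun A _ I hI =>
      absurd (main_gap P H φ I hI href hsym) (not_le.2 hlt)
    refine ⟨C, fun B _ _ hB => ?_⟩
    obtain ⟨P, h1, h2, h3, h4, h5⟩ := hC B hB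
    exact ⟨P, unf P, h1, h2, h3, h4, unfolded_unf P, h5⟩
  · rintro ⟨C, hC⟩
    obtain ⟨n₀, hn₀⟩ := growth (52 + 5 * φ.qr) (C * 50)
    obtain ⟨P, -, href, hsym, -, hsize, -, -⟩ := hC (Fin (max C n₀)) (by simp)
    refine ⟨Fin (max C n₀), inferInstance, inferInstance, Finset.univ, P, href, hsym, ?_⟩
    have h1 := hn₀ (max C n₀) (le_max_right _ _)
    rw [Fintype.card_fin] at hsize
    rw [Finset.card_univ, Fintype.card_fin]
    refine lt_of_le_of_lt (Nat.mul_le_mul_left _ ?_) h1
    rw [pow_mul]
    exact Nat.pow_le_pow_left hsize 50

end Pool.Agent.Results.MP_c07f0d_lc.SymmetricExtendedFrege
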